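import Pool.Agent.H3.L2.Defs

/-!
Basic facts on the homology of based complexes: ranks, finiteness of torsion, functoriality.
-/

set_option autoImplicit false

open scoped BigOperators Topology

noncomputable section

namespace Pool.H3.L2

section Comm

variable {R : Type} [CommRing R]

theorem BCx.mem_Zk {C : BCx R} {k : ℕ} {v : C.S → R} :
    v ∈ C.Zk k ↔ (∀ s, C.deg s ≠ k → v s = 0) ∧ Matrix.vecMul v C.D = 0 := Iff.rfl

theorem BCx.mem_Bk {C : BCx R} {k : ℕ} {v : C.S → R} :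
    v ∈ C.Bk k ↔ ∃ w : C.S → R, (∀ s, C.deg s ≠ k + 1 → w s = 0) ∧ Matrix.vecMul w C.D = v :=
  Iff.rfl

theorem BCx.D_zero (C : BCx R) {s t : C.S} (h : C.deg s ≠ C.deg t + 1) : C.D s t = 0 := by
  by_contra h0
  exact h (C.deg_D s t h0)

theorem BCx.Bk_le_Zk (C : BCx R) (k : ℕ) : C.Bk k ≤ C.Zk k := by
  rintro v ⟨w, hw, rfl⟩
  refine ⟨fun s hs => ?_, ?_⟩
  · simp only [Matrix.vecMul, dotProduct]
    refine Finset.sum_eq_zero fun t _ => ?_
    by_cases h : C.deg t = k + 1
    · rw [C.D_zero (by omega), mul_zero]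
    · rw [hw t h, zero_mul]
  · rw [Matrix.vecMul_vecMul, C.D_D, Matrix.vecMul_zero]

theorem BCx.D_mem_Bk (C : BCx R) {k : ℕ} {s : C.S} (hs : C.deg s = k + 1) : C.D s ∈ C.Bk k := by
  refine ⟨Pi.single s 1, fun t ht => ?_, ?_⟩
  · rw [Pi.single_apply, if_neg]
    rintro rfl
    exact ht hs
  · rw [Matrix.single_one_vecMul]
    rfl

/-- The submodule of chains of degree `k`. -/
def BCx.Ck (C : BCx R) (k : ℕ) : Submodule R (C.S → R) where
  carrier := {v | ∀ s, C.deg s ≠ k → v s = 0}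
  add_mem' := fun ha hb s hs => by simp [ha s hs, hb s hs]
  zero_mem' := fun _ _ => rfl
  smul_mem' := fun c a ha s hs => by simp [ha s hs]

/-- The number of basis elements of degree `k`. -/
def BCx.ck (C : BCx R) (k : ℕ) : ℕ := Fintype.card {s : C.S // C.deg s = k}

/-- The chains of degree `k` are functions on the basis elements of degree `k`. -/
def BCx.CkEquiv (C : BCx R) (k : ℕ) : ↥(C.Ck k) ≃ₗ[R] ({s : C.S // C.deg s = k} → R) where
  toFun v := fun s => v.1 s.1
  map_add' _ _ := rfl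
  map_smul' _ _ := rfl
  invFun w := ⟨fun s => if h : C.deg s = k then w ⟨s, h⟩ else 0, fun s hs => by simp [hs]⟩
  left_inv v := by
    ext s
    by_cases h : C.deg s = k
    · simp [h]
    · simp [h, v.2 s h]
  right_inv w := by
    ext ⟨s, hs⟩
    simp [hs]

theorem BCx.finrank_Ck [Nontrivial R] (C : BCx R) (k : ℕ) :
    Module.finrank R (C.Ck k) = C.ck k := by
  rw [(C.CkEquiv k).finrank_eq, Module.finrank_fintype_fun_eq_card]
  rfl

/-- The boundary map on chains of degree `k`. -/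
def BCx.dk (C : BCx R) (k : ℕ) : ↥(C.Ck k) →ₗ[R] (C.S → R) :=
  (Matrix.vecMulLinear C.D) ∘ₗ (C.Ck k).subtype

theorem BCx.range_dk (C : BCx R) (k : ℕ) : LinearMap.range (C.dk (k + 1)) = C.Bk k := by
  ext v
  constructor
  · rintro ⟨w, rfl⟩
    exact ⟨w.1, w.2, rfl⟩
  · rintro ⟨w, hw, rfl⟩
    exact ⟨⟨w, hw⟩, rfl⟩

theorem BCx.dk_zero (C : BCx R) : C.dk 0 = 0 := by
  ext ⟨v, hv⟩ t
  simp only [BCx.dk, LinearMap.comp_apply, Submodule.subtype_apply, Matrix.vecMulLinear_apply,
    LinearMap.zero_apply, Pi.zero_apply, Matrix.vecMul, dotProduct]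
  refine Finset.sum_eq_zero fun s _ => ?_
  by_cases h : C.deg s = 0
  · rw [C.D_zero (by omega), mul_zero]
  · rw [hv s h, zero_mul]

/-- The cycles are the kernel of the boundary map. -/
def BCx.kerEquiv (C : BCx R) (k : ℕ) : ↥(LinearMap.ker (C.dk k)) ≃ₗ[R] ↥(C.Zk k) where
  toFun v := ⟨v.1.1, v.1.2, v.2⟩
  map_add' _ _ := rfl
  map_smul' _ _ := rfl
  invFun v := ⟨⟨v.1, v.2.1⟩, v.2.2⟩
  left_inv _ := rfl
  right_inv _ := rfl

variable [IsDomain R] [IsNoetherianRing R]

omit [IsNoetherianRing R] in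
theorem finrank_range_add_ker {M M' : Type} [AddCommGroup M] [Module R M] [AddCommGroup M']
    [Module R M'] [Module.Finite R M] (f : M →ₗ[R] M') :
    Module.finrank R (LinearMap.range f) + Module.finrank R (LinearMap.ker f) =
      Module.finrank R M := by
  rw [← f.quotKerEquivRange.finrank_eq, Submodule.finrank_quotient_add_finrank]

theorem BCx.finrank_Hk_add (C : BCx R) (k : ℕ) :
    Module.finrank R (C.Hk k) + Module.finrank R (C.Bk k) = Module.finrank R (C.Zk k) := by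
  rw [← Submodule.finrank_quotient_add_finrank ((C.Bk k).submoduleOf (C.Zk k)),
    (Submodule.submoduleOfEquivOfLe (C.Bk_le_Zk k)).finrank_eq]

theorem BCx.finrank_Zk_succ (C : BCx R) (k : ℕ) :
    Module.finrank R (C.Bk k) + Module.finrank R (C.Zk (k + 1)) = C.ck (k + 1) := by
  rw [← BCx.finrank_Ck, ← BCx.range_dk, ← (C.kerEquiv (k + 1)).finrank_eq,
    finrank_range_add_ker]

theorem BCx.finrank_Zk_zero (C : BCx R) :
    Module.finrank R (C.Zk 0) = C.ck 0 := by
  rw [← BCx.finrank_Ck, ← (C.kerEquiv 0).finrank_eq]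
  have h := finrank_range_add_ker (C.dk 0)
  have h0 : LinearMap.range (C.dk 0) = ⊥ := by rw [C.dk_zero, LinearMap.range_zero]
  rw [h0, finrank_bot, zero_add] at h
  exact h

theorem BCx.finrank_Hk_succ (C : BCx R) (k : ℕ) :
    Module.finrank R (C.Hk (k + 1)) + Module.finrank R (C.Bk (k + 1)) +
      Module.finrank R (C.Bk k) = C.ck (k + 1) := by
  rw [C.finrank_Hk_add, add_comm, C.finrank_Zk_succ]

theorem BCx.finrank_Hk_zero (C : BCx R) :
    Module.finrank R (C.Hk 0) + Module.finrank R (C.Bk 0) = C.ck 0 := by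
  rw [C.finrank_Hk_add, C.finrank_Zk_zero]

end Comm

/-- The boundaries after a change of coefficients, as a space of functions on `A.S`. -/
def BCx.BK (K : Type) [CommRing K] (A : BCx ℤ) (k : ℕ) : Submodule K (A.S → K) :=
  (A.map (Int.castRingHom K)).Bk k

theorem BCx.mem_BK {K : Type} [CommRing K] (A : BCx ℤ) (k : ℕ) (v : A.S → K) :
    v ∈ A.BK K k ↔ ∃ w : A.S → K, (∀ s, A.deg s ≠ k + 1 → w s = 0) ∧
      ∀ t, ∑ s, w s * ((A.D s t : ℤ) : K) = v t := by
  constructor
  · rintro ⟨w, hw, h⟩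
    exact ⟨w, hw, fun t => congrFun h t⟩
  · rintro ⟨w, hw, h⟩
    exact ⟨w, hw, funext h⟩

/-- The torsion subgroup of the homology is finite. -/
theorem BCx.finite_torsion (C : BCx ℤ) (k : ℕ) : Finite (Submodule.torsion ℤ (C.Hk k)) := by
  have h1 : Module.Finite ℤ (Submodule.torsion ℤ (C.Hk k)) := inferInstance
  exact Module.finite_of_fg_torsion _ (Submodule.torsion_isTorsion)

theorem BCx.torsOrd_pos (C : BCx ℤ) (k : ℕ) : 0 < C.torsOrd k := by
  have := C.finite_torsion k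
  exact Nat.card_pos

end Pool.H3.L2
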