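import Pool.Agent.H87.L2.Tens

/-!
Free summands of the homology and the torsion of a tensor product.
-/

set_option autoImplicit false

open scoped BigOperators Topology Kronecker

noncomputable section

namespace Pool.H3.L2

/-- Data exhibiting a free module `ℤ ^ ι` with zero differential in degree `l` as a direct summand
of the complex `A`. -/
structure FR (A : BCx ℤ) (l : ℕ) (ι : Type) [DecidableEq ι] where
  Z : Matrix ι A.S ℤ
  W : Matrix A.S ι ℤ
  Z_deg : ∀ i s, A.deg s ≠ l → Z i s = 0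
  W_deg : ∀ s i, A.deg s ≠ l → W s i = 0
  ZD : Z * A.D = 0
  DW : A.D * W = 0
  ZW : Z * W = 1

theorem exists_extend (A : BCx ℤ) (l : ℕ) :
    ∃ π : (A.S → ℤ) →ₗ[ℤ] A.Zk l, ∀ v : A.Zk l, π v = v := by
  have htf : Module.IsTorsionFree ℤ ((A.S → ℤ) ⧸ A.Zk l) := by
    refine ⟨fun n hn => ?_⟩
    have hn0 : n ≠ 0 := hn.ne_zero
    intro x y hxy
    induction x using Submodule.Quotient.induction_on with | _ v =>
    induction y using Submodule.Quotient.induction_on with | _ w =>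
    have h1 : (Submodule.Quotient.mk (n • v) : (A.S → ℤ) ⧸ A.Zk l) =
      Submodule.Quotient.mk (n • w) := hxy
    rw [Submodule.Quotient.eq] at h1 ⊢
    rw [← smul_sub] at h1
    refine ⟨fun s hs => ?_, ?_⟩
    · have h2 := h1.1 s hs
      rw [Pi.smul_apply, smul_eq_mul] at h2
      exact (mul_eq_zero.1 h2).resolve_left hn0
    · have h2 := h1.2
      rw [Matrix.smul_vecMul] at h2
      exact (smul_eq_zero.1 h2).resolve_left hn0
  have hfree : Module.Free ℤ ((A.S → ℤ) ⧸ A.Zk l) := inferInstance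
  obtain ⟨h, hh⟩ := Module.projective_lifting_property (A.Zk l).mkQ LinearMap.id
    (Submodule.mkQ_surjective _)
  let T : (A.S → ℤ) →ₗ[ℤ] (A.S → ℤ) := LinearMap.id - h ∘ₗ (A.Zk l).mkQ
  have hmem : ∀ v, T v ∈ A.Zk l := by
    intro v
    have h1 : (A.Zk l).mkQ (h ((A.Zk l).mkQ v)) = (A.Zk l).mkQ v :=
      congrFun (congrArg DFunLike.coe hh) _
    rw [← Submodule.ker_mkQ (A.Zk l), LinearMap.mem_ker]
    show (A.Zk l).mkQ (v - h ((A.Zk l).mkQ v)) = 0
    rw [map_sub, h1, sub_self]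
  refine ⟨LinearMap.codRestrict _ T hmem, fun v => ?_⟩
  apply Subtype.ext
  have h2 : (A.Zk l).mkQ (v : A.S → ℤ) = 0 := by
    rw [Submodule.mkQ_apply, Submodule.Quotient.mk_eq_zero]
    exact v.2
  show (v : A.S → ℤ) - h ((A.Zk l).mkQ v) = v
  rw [h2, map_zero, sub_zero]

theorem functional_eq_sum {S : Type} [Fintype S] [DecidableEq S] (φ : (S → ℤ) →ₗ[ℤ] ℤ)
    (v : S → ℤ) : φ v = ∑ s, v s * φ (Pi.single s 1) := by
  conv_lhs => rw [show v = ∑ s, v s • (Pi.single s (1 : ℤ) : S → ℤ) from by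
    ext t
    rw [Finset.sum_apply, Finset.sum_eq_single t]
    · simp
    · intro b _ hb
      simp [Ne.symm hb]
    · simp]
  rw [map_sum]
  refine Finset.sum_congr rfl fun s _ => ?_
  rw [map_smul, smul_eq_mul]

theorem exists_FR (A : BCx ℤ) (l : ℕ) : Nonempty (FR A l (Fin (A.betti ℝ l))) := by
  classical
  obtain ⟨π, hπ⟩ := exists_extend A l
  let H := A.Hk l
  let Q := H ⧸ Submodule.torsion ℤ H
  have hfree : Module.Free ℤ Q := inferInstance
  have hrk : Module.finrank ℤ Q = A.betti ℝ l := by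
    rw [← finrank_Hk]
    exact finrank_quotient_eq_of_le_torsion le_rfl
  let b : Module.Basis (Fin (A.betti ℝ l)) ℤ Q :=
    (Module.finBasis ℤ Q).reindex (finCongr hrk)
  let ρ : A.Zk l →ₗ[ℤ] Q :=
    (Submodule.torsion ℤ H).mkQ ∘ₗ ((A.Bk l).submoduleOf (A.Zk l)).mkQ
  have hρ : Function.Surjective ρ := by
    exact (Submodule.mkQ_surjective _).comp (Submodule.mkQ_surjective _)
  choose z hz using fun i => hρ (b i)
  let ψ : Fin (A.betti ℝ l) → (A.S → ℤ) →ₗ[ℤ] ℤ := fun i => b.coord i ∘ₗ ρ ∘ₗ π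
  have hψz : ∀ i j, ψ j (z i : A.S → ℤ) = if i = j then 1 else 0 := by
    intro i j
    show b.coord j (ρ (π (z i))) = _
    rw [hπ, hz, Module.Basis.coord_apply, b.repr_self, Finsupp.single_apply]
  have hψB : ∀ v ∈ A.Bk l, ∀ j, ψ j v = 0 := by
    intro v hv j
    show b.coord j (ρ (π v)) = _
    have h1 : π v = ⟨v, A.Bk_le_Zk l hv⟩ := hπ ⟨v, A.Bk_le_Zk l hv⟩
    have h2 : ((A.Bk l).submoduleOf (A.Zk l)).mkQ ⟨v, A.Bk_le_Zk l hv⟩ = 0 := by
      rw [Submodule.mkQ_apply, Submodule.Quotient.mk_eq_zero]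
      exact hv
    have h3 : ρ ⟨v, A.Bk_le_Zk l hv⟩ = 0 := by
      show (Submodule.torsion ℤ H).mkQ (((A.Bk l).submoduleOf (A.Zk l)).mkQ _) = 0
      rw [h2, map_zero]
    rw [h1, h3, map_zero]
  refine ⟨{ Z := Matrix.of fun i => (z i : A.S → ℤ)
            W := Matrix.of fun s j => if A.deg s = l then ψ j (Pi.single s 1) else 0
            Z_deg := fun i s hs => (z i).2.1 s hs
            W_deg := fun s i hs => by simp [hs]
            ZD := ?_
            DW := ?_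
            ZW := ?_ }⟩
  · ext i s
    exact congrFun (z i).2.2 s
  · ext s j
    rw [Matrix.mul_apply, Matrix.zero_apply]
    simp only [Matrix.of_apply]
    by_cases hs : A.deg s = l + 1
    · have h1 := hψB _ (A.D_mem_Bk hs) j
      rw [functional_eq_sum] at h1
      rw [← h1]
      refine Finset.sum_congr rfl fun t _ => ?_
      by_cases ht : A.deg t = l
      · rw [if_pos ht]
      · rw [if_neg ht, A.D_zero (by omega), zero_mul, zero_mul]
    · refine Finset.sum_eq_zero fun t _ => ?_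
      by_cases ht : A.deg t = l
      · rw [A.D_zero (by omega), zero_mul]
      · rw [if_neg ht, mul_zero]
  · ext i j
    rw [Matrix.mul_apply, Matrix.one_apply]
    simp only [Matrix.of_apply]
    rw [← hψz i j, functional_eq_sum]
    refine Finset.sum_congr rfl fun t _ => ?_
    by_cases ht : A.deg t = l
    · rw [if_pos ht]
    · rw [if_neg ht, (z i).2.1 t ht, zero_mul, zero_mul]

/-- The map induced on cycles by a matrix which is a chain map up to a sign `ε` and which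
shifts degrees. -/
def ZkMap {A B : BCx ℤ} (M : Matrix A.S B.S ℤ) (k k' : ℕ) (ε : ℤ)
    (h0 : ∀ s t, A.deg s = k → B.deg t ≠ k' → M s t = 0)
    (hε : ε * ε = 1) (hc : A.D * M = ε • (M * B.D)) : A.Zk k →ₗ[ℤ] B.Zk k' :=
  LinearMap.codRestrict (B.Zk k') ((Matrix.vecMulLinear M) ∘ₗ (A.Zk k).subtype) (by
    rintro ⟨v, hv1, hv2⟩
    refine ⟨fun t ht => ?_, ?_⟩
    · show ∑ s, v s * M s t = 0
      refine Finset.sum_eq_zero fun s _ => ?_
      by_cases hs : A.deg s = k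
      · rw [h0 s t hs ht, mul_zero]
      · rw [hv1 s hs, zero_mul]
    · show Matrix.vecMul (Matrix.vecMul v M) B.D = 0
      have h2 : M * B.D = ε • (A.D * M) := by
        rw [hc, smul_smul, hε, one_smul]
      rw [Matrix.vecMul_vecMul, h2, Matrix.vecMul_smul, ← Matrix.vecMul_vecMul, hv2,
        Matrix.zero_vecMul, smul_zero])

theorem ZkMap_val {A B : BCx ℤ} (M : Matrix A.S B.S ℤ) (k k' : ℕ) (ε : ℤ)
    (h0 : ∀ s t, A.deg s = k → B.deg t ≠ k' → M s t = 0)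
    (hε : ε * ε = 1) (hc : A.D * M = ε • (M * B.D)) (v : A.Zk k) :
    (ZkMap M k k' ε h0 hε hc v : B.S → ℤ) = Matrix.vecMul (v : A.S → ℤ) M := rfl

/-- The map induced on homology by a matrix which is a chain map up to a sign `ε` and which
shifts degrees. -/
def HkMap {A B : BCx ℤ} (M : Matrix A.S B.S ℤ) (k k' : ℕ) (ε : ℤ)
    (h0 : ∀ s t, A.deg s = k → B.deg t ≠ k' → M s t = 0)
    (h1 : ∀ s t, A.deg s = k + 1 → B.deg t ≠ k' + 1 → M s t = 0)
    (hε : ε * ε = 1) (hc : A.D * M = ε • (M * B.D)) : A.Hk k →ₗ[ℤ] B.Hk k' :=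
  Submodule.mapQ _ _ (ZkMap M k k' ε h0 hε hc) (by
    intro v hvB
    obtain ⟨w, hw, hwD⟩ := BCx.mem_Bk.1 (show (v : A.S → ℤ) ∈ A.Bk k from hvB)
    show (ZkMap M k k' ε h0 hε hc v : B.S → ℤ) ∈ B.Bk k'
    rw [ZkMap_val]
    refine BCx.mem_Bk.2 ⟨ε • Matrix.vecMul w M, fun t ht => ?_, ?_⟩
    · have h3 : Matrix.vecMul w M t = 0 := by
        show ∑ s, w s * M s t = 0
        refine Finset.sum_eq_zero fun s _ => ?_
        by_cases hs : A.deg s = k + 1
        · rw [h1 s t hs ht, mul_zero]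
        · rw [hw s hs, zero_mul]
      rw [Pi.smul_apply, h3, smul_zero]
    · rw [Matrix.smul_vecMul, Matrix.vecMul_vecMul, ← Matrix.vecMul_smul, ← hc,
        ← Matrix.vecMul_vecMul, hwD])

theorem HkMap_mk {A B : BCx ℤ} (M : Matrix A.S B.S ℤ) (k k' : ℕ) (ε : ℤ)
    (h0 : ∀ s t, A.deg s = k → B.deg t ≠ k' → M s t = 0)
    (h1 : ∀ s t, A.deg s = k + 1 → B.deg t ≠ k' + 1 → M s t = 0)
    (hε : ε * ε = 1) (hc : A.D * M = ε • (M * B.D)) (v : A.Zk k) :
    HkMap M k k' ε h0 h1 hε hc (Submodule.Quotient.mk v) =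
      Submodule.Quotient.mk (ZkMap M k k' ε h0 hε hc v) := rfl

/-- Composition of two such maps, when the product of the matrices is a multiple of the identity. -/
theorem HkMap_HkMap {A B : BCx ℤ} (M : Matrix A.S B.S ℤ) (N : Matrix B.S A.S ℤ) (k k' : ℕ)
    (ε : ℤ)
    (h0 : ∀ s t, A.deg s = k → B.deg t ≠ k' → M s t = 0)
    (h1 : ∀ s t, A.deg s = k + 1 → B.deg t ≠ k' + 1 → M s t = 0)
    (h0' : ∀ s t, B.deg s = k' → A.deg t ≠ k → N s t = 0)
    (h1' : ∀ s t, B.deg s = k' + 1 → A.deg t ≠ k + 1 → N s t = 0)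
    (hε : ε * ε = 1) (hc : A.D * M = ε • (M * B.D)) (hc' : B.D * N = ε • (N * A.D))
    (n : ℤ) (hMN : M * N = n • (1 : Matrix A.S A.S ℤ)) (x : A.Hk k) :
    HkMap N k' k ε h0' h1' hε hc' (HkMap M k k' ε h0 h1 hε hc x) = n • x := by
  induction x using Submodule.Quotient.induction_on with | _ v =>
  rw [HkMap_mk, HkMap_mk, ← Submodule.Quotient.mk_smul]
  congr 1
  apply Subtype.ext
  rw [ZkMap_val, ZkMap_val, Matrix.vecMul_vecMul, hMN, Matrix.vecMul_smul, Matrix.vecMul_one]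
  rfl

theorem card_torsion_le {H H' : Type} [AddCommGroup H] [AddCommGroup H'] {n : ℕ}
    [Finite (Submodule.torsion ℤ H')] (f : Fin n → H →ₗ[ℤ] H') (g : Fin n → H' →ₗ[ℤ] H)
    (h : ∀ i j x, g j (f i x) = (if i = j then (1 : ℤ) else 0) • x) :
    Nat.card (Submodule.torsion ℤ H) ^ n ≤ Nat.card (Submodule.torsion ℤ H') := by
  classical
  have hcard : Nat.card (Fin n → Submodule.torsion ℤ H) =
      Nat.card (Submodule.torsion ℤ H) ^ n := by
    rw [Nat.card_fun, Nat.card_fin]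
  rw [← hcard]
  have hmem : ∀ x : Fin n → Submodule.torsion ℤ H,
      ∑ i, f i (x i : H) ∈ Submodule.torsion ℤ H' := by
    intro x
    refine Submodule.sum_mem _ fun i _ => ?_
    obtain ⟨a, ha⟩ := (Submodule.mem_torsion_iff _).1 (x i).2
    rw [Submodule.mem_torsion_iff]
    refine ⟨a, ?_⟩
    have h1 : a • f i (x i : H) = f i (a • (x i : H)) := ((f i).map_smul (a : ℤ) _).symm
    rw [h1, ha, map_zero]
  refine Nat.card_le_card_of_injective
    (fun x => (⟨∑ i, f i (x i : H), hmem x⟩ : Submodule.torsion ℤ H')) ?_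
  intro x y hxy
  have h1 : ∑ i, f i (x i : H) = ∑ i, f i (y i : H) := congrArg Subtype.val hxy
  funext j
  have h2 : ∀ x : Fin n → Submodule.torsion ℤ H, g j (∑ i, f i (x i : H)) = x j := by
    intro x
    rw [map_sum, Finset.sum_congr rfl fun i _ => h i j (x i : H)]
    rw [Finset.sum_eq_single j]
    · simp
    · intro i _ hi
      rw [if_neg hi, zero_smul]
    · simp
  apply Subtype.ext
  rw [← h2 x, h1, h2 y]

section main

variable {l : ℕ} {ι : Type} [DecidableEq ι]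

/-- The rows of `Z ⊗ 1`. -/
def FR.M {A : BCx ℤ} (X : FR A l ι) (B : BCx ℤ) (i : ι) : Matrix B.S (A.S × B.S) ℤ :=
  (X.Z ⊗ₖ (1 : Matrix B.S B.S ℤ)).submatrix (fun t => (i, t)) id

/-- The columns of `W ⊗ 1`. -/
def FR.N {A : BCx ℤ} (X : FR A l ι) (B : BCx ℤ) (j : ι) : Matrix (A.S × B.S) B.S ℤ :=
  (X.W ⊗ₖ (1 : Matrix B.S B.S ℤ)).submatrix id (fun t => (j, t))

theorem FR.M_comm {A : BCx ℤ} (X : FR A l ι) (B : BCx ℤ) (i : ι) :
    B.D * X.M B i = (-1 : ℤ) ^ l • (X.M B i *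
      (A.D ⊗ₖ (1 : Matrix B.S B.S ℤ) + sgnM ℤ A.deg ⊗ₖ B.D)) := by
  have h1 : (X.Z ⊗ₖ (1 : Matrix B.S B.S ℤ)) *
      (A.D ⊗ₖ (1 : Matrix B.S B.S ℤ) + sgnM ℤ A.deg ⊗ₖ B.D) = (-1 : ℤ) ^ l • (X.Z ⊗ₖ B.D) := by
    rw [Matrix.mul_add, ← Matrix.mul_kronecker_mul, ← Matrix.mul_kronecker_mul, X.ZD,
      Matrix.zero_kronecker, zero_add, mul_sgn (A := A) X.Z X.Z_deg, Matrix.one_mul,
      Matrix.smul_kronecker]
  have h4 : ((-1 : ℤ) ^ l) * (-1) ^ l = 1 := by
    rw [← mul_pow]; norm_num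
  ext t x
  have h2 := congrFun (congrFun h1 (i, t)) x
  rw [Matrix.smul_apply, smul_eq_mul]
  have h3 : (X.M B i * (A.D ⊗ₖ (1 : Matrix B.S B.S ℤ) + sgnM ℤ A.deg ⊗ₖ B.D)) t x =
      ((-1 : ℤ) ^ l • (X.Z ⊗ₖ B.D)) (i, t) x := h2
  rw [h3, Matrix.smul_apply, smul_eq_mul, ← mul_assoc, h4, one_mul, Matrix.kronecker_apply,
    Matrix.mul_apply]
  have h5 : ∀ u, B.D t u * X.M B i u x = if u = x.2 then X.Z i x.1 * B.D t x.2 else 0 := by
    intro u
    have h6 : X.M B i u x = X.Z i x.1 * (if u = x.2 then 1 else 0) := by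
      rw [← Matrix.one_apply]
      rfl
    rw [h6]
    by_cases hu : u = x.2
    · rw [if_pos hu, if_pos hu, hu]
      ring
    · rw [if_neg hu, if_neg hu]
      ring
  rw [Finset.sum_congr rfl fun u _ => h5 u]
  simp

theorem FR.N_comm {A : BCx ℤ} (X : FR A l ι) (B : BCx ℤ) (j : ι) :
    (A.D ⊗ₖ (1 : Matrix B.S B.S ℤ) + sgnM ℤ A.deg ⊗ₖ B.D) * X.N B j =
      (-1 : ℤ) ^ l • (X.N B j * B.D) := by
  have h1 : (A.D ⊗ₖ (1 : Matrix B.S B.S ℤ) + sgnM ℤ A.deg ⊗ₖ B.D) *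
      (X.W ⊗ₖ (1 : Matrix B.S B.S ℤ)) = (-1 : ℤ) ^ l • (X.W ⊗ₖ B.D) := by
    rw [Matrix.add_mul, ← Matrix.mul_kronecker_mul, ← Matrix.mul_kronecker_mul, X.DW,
      Matrix.zero_kronecker, zero_add, sgn_mul (A := A) X.W X.W_deg, Matrix.mul_one,
      Matrix.smul_kronecker]
  ext x t
  have h2 := congrFun (congrFun h1 x) (j, t)
  have h3 : ((A.D ⊗ₖ (1 : Matrix B.S B.S ℤ) + sgnM ℤ A.deg ⊗ₖ B.D) * X.N B j) x t =
      ((-1 : ℤ) ^ l • (X.W ⊗ₖ B.D)) x (j, t) := h2
  rw [h3, Matrix.smul_apply, Matrix.smul_apply, Matrix.kronecker_apply, Matrix.mul_apply]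
  congr 1
  have h5 : ∀ u, X.N B j x u * B.D u t = if x.2 = u then X.W x.1 j * B.D x.2 t else 0 := by
    intro u
    have h6 : X.N B j x u = X.W x.1 j * (if x.2 = u then 1 else 0) := by
      rw [← Matrix.one_apply]
      rfl
    rw [h6]
    by_cases hu : x.2 = u
    · rw [if_pos hu, if_pos hu, hu]
      ring
    · rw [if_neg hu, if_neg hu]
      ring
  rw [Finset.sum_congr rfl fun u _ => h5 u]
  simp

theorem FR.MN {A : BCx ℤ} (X : FR A l ι) (B : BCx ℤ) (i j : ι) :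
    X.M B i * X.N B j = (if i = j then (1 : ℤ) else 0) • (1 : Matrix B.S B.S ℤ) := by
  have h1 : (X.Z ⊗ₖ (1 : Matrix B.S B.S ℤ)) * (X.W ⊗ₖ (1 : Matrix B.S B.S ℤ)) =
      (1 : Matrix ι ι ℤ) ⊗ₖ (1 : Matrix B.S B.S ℤ) := by
    rw [← Matrix.mul_kronecker_mul, X.ZW, Matrix.one_mul]
  ext t t'
  have h2 : (X.M B i * X.N B j) t t' =
      ((1 : Matrix ι ι ℤ) ⊗ₖ (1 : Matrix B.S B.S ℤ)) (i, t) (j, t') :=
    congrFun (congrFun h1 (i, t)) (j, t')
  rw [h2, Matrix.kronecker_apply, Matrix.smul_apply, smul_eq_mul, Matrix.one_apply]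

end main

/-- The torsion of a tensor product with a complex having free homology of rank
`A.betti ℝ l` in degree `l`. -/
theorem torsOrd_tens_free (A B : BCx ℤ) (k l : ℕ) :
    (B.torsOrd k) ^ (A.betti ℝ l) ≤ (A.tens B).torsOrd (l + k) := by
  obtain ⟨X⟩ := exists_FR A l
  have hfin := (A.tens B).finite_torsion (l + k)
  have hε : ((-1 : ℤ) ^ l) * (-1) ^ l = 1 := by
    rw [← mul_pow]; norm_num
  have hM0 : ∀ (i : Fin (A.betti ℝ l)) (m : ℕ) (t : B.S) (x : A.S × B.S), B.deg t = m →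
      A.deg x.1 + B.deg x.2 ≠ l + m → X.M B i t x = 0 := by
    intro i m t x ht hx
    have h6 : X.M B i t x = X.Z i x.1 * (if t = x.2 then 1 else 0) := by
      rw [← Matrix.one_apply]
      rfl
    rw [h6]
    by_cases h : t = x.2
    · rw [X.Z_deg i x.1 (by rw [← h, ht] at hx; omega), zero_mul]
    · rw [if_neg h, mul_zero]
  have hN0 : ∀ (j : Fin (A.betti ℝ l)) (m : ℕ) (x : A.S × B.S) (t : B.S),
      A.deg x.1 + B.deg x.2 = l + m → B.deg t ≠ m → X.N B j x t = 0 := by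
    intro j m x t hx ht
    have h6 : X.N B j x t = X.W x.1 j * (if x.2 = t then 1 else 0) := by
      rw [← Matrix.one_apply]
      rfl
    rw [h6]
    by_cases h : x.2 = t
    · rw [X.W_deg x.1 j (by rw [h] at hx; omega), zero_mul]
    · rw [if_neg h, mul_zero]
  have hMc : ∀ i, B.D * (show Matrix B.S (A.tens B).S ℤ from X.M B i) =
      (-1 : ℤ) ^ l • ((show Matrix B.S (A.tens B).S ℤ from X.M B i) * (A.tens B).D) := by
    intro i
    have h := X.M_comm B i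
    rw [← tens_D] at h
    exact h
  have hNc : ∀ j, (A.tens B).D * (show Matrix (A.tens B).S B.S ℤ from X.N B j) =
      (-1 : ℤ) ^ l • ((show Matrix (A.tens B).S B.S ℤ from X.N B j) * B.D) := by
    intro j
    have h := X.N_comm B j
    rw [← tens_D] at h
    exact h
  exact card_torsion_le
    (fun i => HkMap (A := B) (B := A.tens B) (X.M B i) k (l + k) ((-1) ^ l)
      (fun s t hs ht => hM0 i k s t hs ht)
      (fun s t hs ht => hM0 i (k + 1) s t hs ht) hε (hMc i))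
    (fun j => HkMap (A := A.tens B) (B := B) (X.N B j) (l + k) k ((-1) ^ l)
      (fun s t hs ht => hN0 j k s t hs ht)
      (fun s t hs ht => hN0 j (k + 1) s t hs ht) hε (hNc j))
    (fun i j x => HkMap_HkMap (A := B) (B := A.tens B) (X.M B i) (X.N B j) k (l + k) _ _ _ _ _
      hε (hMc i) (hNc j) _ (X.MN B i j) x)

end Pool.H3.L2
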