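import Pool.Agent.H87.L2.Base

/-!
Direct summands of the form `ℤ → ℤ, x ↦ q x` of integer complexes, from the Smith normal form.
-/

set_option autoImplicit false

open scoped BigOperators Topology

noncomputable section

namespace Pool.H3.L2

/-- Data exhibiting the direct sum over `i` of the complexes `ℤ → ℤ, x ↦ q i x` (in degrees
`k + 1` and `k`) as a direct summand of the complex with basis `S` and boundary map `D`. -/
structure PT (S : Type) [Fintype S] (deg : S → ℕ) (D : Matrix S S ℤ) (k : ℕ) (ι : Type)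
    [Fintype ι] [DecidableEq ι] (q : ι → ℤ) where
  F : Matrix ι S ℤ
  G : Matrix ι S ℤ
  U : Matrix S ι ℤ
  V : Matrix S ι ℤ
  F_deg : ∀ i s, deg s ≠ k → F i s = 0
  G_deg : ∀ i s, deg s ≠ k + 1 → G i s = 0
  U_deg : ∀ s i, deg s ≠ k → U s i = 0
  V_deg : ∀ s i, deg s ≠ k + 1 → V s i = 0
  GD : G * D = Matrix.diagonal q * F
  DU : D * U = V * Matrix.diagonal q
  FU : F * U = 1

/-- Restriction to a subset of the index set. -/
def PT.sub {S : Type} [Fintype S] {deg : S → ℕ} {D : Matrix S S ℤ} {k : ℕ} {ι κ : Type}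
    [Fintype ι] [DecidableEq ι] [Fintype κ] [DecidableEq κ] {q : ι → ℤ} (P : PT S deg D k ι q)
    (e : κ ↪ ι) : PT S deg D k κ (q ∘ e) where
  F := P.F.submatrix e id
  G := P.G.submatrix e id
  U := P.U.submatrix id e
  V := P.V.submatrix id e
  F_deg := fun i s h => P.F_deg _ _ h
  G_deg := fun i s h => P.G_deg _ _ h
  U_deg := fun s i h => P.U_deg _ _ h
  V_deg := fun s i h => P.V_deg _ _ h
  GD := by
    ext i s
    have h := congrFun (congrFun P.GD (e i)) s
    rw [Matrix.diagonal_mul] at h
    rw [Matrix.diagonal_mul]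
    exact h
  DU := by
    ext s i
    have h := congrFun (congrFun P.DU s) (e i)
    rw [Matrix.mul_diagonal] at h
    rw [Matrix.mul_diagonal]
    exact h
  FU := by
    ext i j
    have h := congrFun (congrFun P.FU (e i)) (e j)
    rw [Matrix.one_apply] at h
    rw [Matrix.one_apply]
    simp only [EmbeddingLike.apply_eq_iff_eq] at h
    exact h

/-- `A` has a direct summand which is a direct sum of `t` complexes `ℤ → ℤ, x ↦ q x` in degrees
`k + 1` and `k` with `q` a nonzero multiple of `p`. -/
def HasPT (p : ℕ) (A : BCx ℤ) (k t : ℕ) : Prop :=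
  ∃ q : Fin t → ℤ, (∀ i, q i ≠ 0 ∧ (p : ℤ) ∣ q i) ∧ Nonempty (PT A.S A.deg A.D k (Fin t) q)

theorem HasPT.of_fintype {p : ℕ} {A : BCx ℤ} {k t : ℕ} {ι : Type} [Fintype ι] [DecidableEq ι]
    (hc : Fintype.card ι = t) (q : ι → ℤ) (hq : ∀ i, q i ≠ 0 ∧ (p : ℤ) ∣ q i)
    (P : PT A.S A.deg A.D k ι q) : HasPT p A k t := by
  subst hc
  exact ⟨_, fun i => hq _, ⟨P.sub (Fintype.equivFin ι).symm.toEmbedding⟩⟩

/-- A Smith normal form of the boundary map from degree `k + 1` to degree `k`. -/
structure SNF (A : BCx ℤ) (k : ℕ) where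
  n : ℕ
  a : Fin n → ℤ
  a_ne : ∀ i, a i ≠ 0
  P : PT A.S A.deg A.D k (Fin n) a
  span : ∀ w ∈ A.Bk k, ∃ c : Fin n → ℤ, w = ∑ i, c i • (a i • P.F i)
  rank : Module.finrank ℤ (A.Bk k) = n

theorem exists_SNF (A : BCx ℤ) (k : ℕ) : Nonempty (SNF A k) := by
  classical
  obtain ⟨n, bM, bN, f, a, hs⟩ := Submodule.smithNormalForm (Pi.basisFun ℤ A.S) (A.Bk k)
  have ha : ∀ i, a i ≠ 0 := by
    intro i h0
    have h1 := hs i
    rw [h0, zero_smul] at h1
    exact bN.ne_zero i (Subtype.ext h1)
  have hmem : ∀ i, a i • bM (f i) ∈ A.Bk k := fun i => by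
    rw [← hs i]; exact (bN i).2
  choose g hg1 hg2 using fun i => BCx.mem_Bk.1 (hmem i)
  have hspan : ∀ w ∈ A.Bk k, ∃ c : Fin n → ℤ, w = ∑ i, c i • (a i • bM (f i)) := by
    intro w hw
    refine ⟨fun i => bN.repr ⟨w, hw⟩ i, ?_⟩
    have h1 := bN.sum_repr ⟨w, hw⟩
    have h2 := congrArg Subtype.val h1
    rw [AddSubmonoidClass.coe_finsetSum] at h2
    refine h2.symm.trans ?_
    refine Finset.sum_congr rfl fun i _ => ?_
    rw [← hs i]
    rfl
  have hFdeg : ∀ i s, A.deg s ≠ k → bM (f i) s = 0 := by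
    intro i s hs'
    have h1 := (A.Bk_le_Zk k (hmem i)).1 s hs'
    rw [Pi.smul_apply, smul_eq_mul, mul_eq_zero] at h1
    exact h1.resolve_left (ha i)
  -- the coordinate functionals
  have hrep : ∀ (v : A.S → ℤ) (x : A.S), bM.repr v x = ∑ s, v s * bM.repr (Pi.single s 1) x := by
    intro v x
    conv_lhs => rw [show v = ∑ s, v s • (Pi.single s (1 : ℤ) : A.S → ℤ) from by
      ext t
      rw [Finset.sum_apply, Finset.sum_eq_single t]
      · simp
      · intro b _ hb
        simp [Ne.symm hb]
      · simp]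
    rw [map_sum, Finsupp.finsetSum_apply]
    refine Finset.sum_congr rfl fun s _ => ?_
    rw [map_smul, Finsupp.smul_apply, smul_eq_mul]
  have hdiv : ∀ s i, A.deg s = k + 1 → a i ∣ bM.repr (A.D s) (f i) := by
    intro s i hs'
    have h1 : A.D s ∈ A.Bk k := A.D_mem_Bk hs'
    obtain ⟨c, hc⟩ := hspan _ h1
    rw [hc, map_sum, Finsupp.finsetSum_apply]
    refine Finset.dvd_sum fun j _ => ?_
    rw [map_smul, map_smul, bM.repr_self, Finsupp.smul_apply, Finsupp.smul_apply,
      Finsupp.single_apply]
    by_cases h : f j = f i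
    · rw [if_pos h, f.injective h]
      simp
    · rw [if_neg h]
      simp
  choose! v hv using hdiv
  refine ⟨⟨n, a, ha, ?_, ?_, ?_⟩⟩
  · refine
      { F := Matrix.of fun i => bM (f i)
        G := Matrix.of g
        U := Matrix.of fun s i => if A.deg s = k then bM.repr (Pi.single s 1) (f i) else 0
        V := Matrix.of fun s i => if A.deg s = k + 1 then v s i else 0
        F_deg := fun i s h => hFdeg i s h
        G_deg := fun i s h => hg1 i s h
        U_deg := fun s i h => by simp [h]
        V_deg := fun s i h => by simp [h]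
        GD := ?_
        DU := ?_
        FU := ?_ }
    · ext i s
      have h := congrFun (hg2 i) s
      rw [Matrix.diagonal_mul]
      exact h
    · ext s i
      rw [Matrix.mul_diagonal, Matrix.mul_apply]
      simp only [Matrix.of_apply]
      by_cases hs' : A.deg s = k + 1
      · rw [if_pos hs', mul_comm, ← hv s i hs', hrep]
        refine Finset.sum_congr rfl fun t _ => ?_
        by_cases ht : A.deg t = k
        · rw [if_pos ht]
        · rw [if_neg ht, A.D_zero (by omega), zero_mul, zero_mul]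
      · rw [if_neg hs', zero_mul]
        refine Finset.sum_eq_zero fun t _ => ?_
        by_cases ht : A.deg t = k
        · rw [A.D_zero (by omega), zero_mul]
        · rw [if_neg ht, mul_zero]
    · ext i j
      rw [Matrix.mul_apply, Matrix.one_apply]
      simp only [Matrix.of_apply]
      have h1 : ∀ x, bM (f i) x * (if A.deg x = k then bM.repr (Pi.single x 1) (f j) else 0) =
          bM (f i) x * bM.repr (Pi.single x 1) (f j) := by
        intro x
        by_cases hx : A.deg x = k
        · rw [if_pos hx]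
        · rw [hFdeg i x hx, zero_mul, zero_mul]
      rw [Finset.sum_congr rfl fun x _ => h1 x, ← hrep, bM.repr_self, Finsupp.single_apply]
      simp only [EmbeddingLike.apply_eq_iff_eq]
  · exact hspan
  · rw [Module.finrank_eq_card_basis bN, Fintype.card_fin]

section Field

variable (K : Type) [Field K] [DecidableEq K]

/-- The dimension of the boundaries over a field. -/
theorem SNF.finrank_BK {A : BCx ℤ} {k : ℕ} (N : SNF A k) :
    Module.finrank K (A.BK K k) =
      Fintype.card {i : Fin N.n // ((N.a i : ℤ) : K) ≠ 0} := by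
  classical
  let b : {i : Fin N.n // ((N.a i : ℤ) : K) ≠ 0} → (A.S → K) :=
    fun i s => ((N.P.F i.1 s : ℤ) : K)
  have hli : LinearIndependent K b := by
    rw [Fintype.linearIndependent_iff]
    intro c hc i
    have h1 : ∑ s, (∑ j, c j • b j) s * ((N.P.U s i.1 : ℤ) : K) = 0 := by
      rw [hc]; simp
    have h2 : ∑ s, (∑ j, c j • b j) s * ((N.P.U s i.1 : ℤ) : K) = c i := by
      simp only [Finset.sum_apply, Pi.smul_apply, smul_eq_mul, Finset.sum_mul]
      rw [Finset.sum_comm]
      rw [Finset.sum_eq_single i]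
      · have h3 := congrFun (congrFun N.P.FU i.1) i.1
        rw [Matrix.mul_apply, Matrix.one_apply_eq] at h3
        have h4 := congrArg (Int.cast : ℤ → K) h3
        push_cast at h4
        simp only [b, mul_assoc]
        rw [← Finset.mul_sum, h4, mul_one]
      · intro j _ hj
        have h3 := congrFun (congrFun N.P.FU j.1) i.1
        rw [Matrix.mul_apply, Matrix.one_apply_ne (fun h => hj (Subtype.ext h))] at h3
        have h4 := congrArg (Int.cast : ℤ → K) h3
        push_cast at h4
        simp only [b, mul_assoc]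
        rw [← Finset.mul_sum, h4, mul_zero]
      · simp
    rw [← h2, h1]
  have hsp : A.BK K k = Submodule.span K (Set.range b) := by
    apply le_antisymm
    · intro w hw
      obtain ⟨x, hx, hxw⟩ := (A.mem_BK k w).1 hw
      have h1 : w = ∑ s, x s • (fun t => ((A.D s t : ℤ) : K)) := by
        funext t
        rw [← hxw t, Finset.sum_apply]
        rfl
      rw [h1]
      refine Submodule.sum_mem _ fun s _ => ?_
      by_cases hs : A.deg s = k + 1
      · refine Submodule.smul_mem _ _ ?_
        have h2 : A.D s ∈ A.Bk k := A.D_mem_Bk hs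
        obtain ⟨c, hc⟩ := N.span _ h2
        have h3 : (fun t => ((A.D s t : ℤ) : K)) =
            ∑ i, ((c i : ℤ) : K) • (((N.a i : ℤ) : K) • (fun t => ((N.P.F i t : ℤ) : K))) := by
          ext t
          have h4 := congrFun hc t
          rw [h4]
          simp only [Finset.sum_apply, Pi.smul_apply, smul_eq_mul]
          push_cast
          rfl
        rw [h3]
        refine Submodule.sum_mem _ fun i _ => ?_
        refine Submodule.smul_mem _ _ ?_
        by_cases hi : ((N.a i : ℤ) : K) = 0
        · rw [hi, zero_smul]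
          exact Submodule.zero_mem _
        · exact Submodule.smul_mem _ _ (Submodule.subset_span ⟨⟨i, hi⟩, rfl⟩)
      · rw [hx s hs, zero_smul]
        exact Submodule.zero_mem _
    · rw [Submodule.span_le]
      rintro _ ⟨i, rfl⟩
      refine (A.mem_BK k _).2 ⟨fun s => ((N.a i.1 : ℤ) : K)⁻¹ * ((N.P.G i.1 s : ℤ) : K),
        fun s hs => ?_, fun t => ?_⟩
      · simp only [N.P.G_deg i.1 s hs, Int.cast_zero, mul_zero]
      · have h3 := congrFun (congrFun N.P.GD i.1) t
        rw [Matrix.mul_apply, Matrix.diagonal_mul] at h3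
        have h4 := congrArg (Int.cast : ℤ → K) h3
        push_cast at h4
        simp only [mul_assoc]
        rw [← Finset.mul_sum, h4, inv_mul_cancel_left₀ i.2]
  rw [hsp, finrank_span_eq_card hli]

end Field

/-- The number of torsion coefficients divisible by `p`. -/
def SNF.tf {A : BCx ℤ} {k : ℕ} (N : SNF A k) (p : ℕ) : ℕ :=
  Fintype.card {i : Fin N.n // (p : ℤ) ∣ N.a i}

theorem SNF.hasPT {A : BCx ℤ} {k : ℕ} (N : SNF A k) (p : ℕ) : HasPT p A k (N.tf p) := by
  classical
  exact HasPT.of_fintype rfl _ (fun i => ⟨N.a_ne _, i.2⟩) (N.P.sub (Function.Embedding.subtype _))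

theorem SNF.finrank_BR {A : BCx ℤ} {k : ℕ} (N : SNF A k) :
    Module.finrank ℝ (A.BK ℝ k) = N.n := by
  classical
  rw [N.finrank_BK ℝ]
  have h : ∀ i : Fin N.n, ((N.a i : ℤ) : ℝ) ≠ 0 := fun i => Int.cast_ne_zero.2 (N.a_ne i)
  rw [Fintype.card_congr (Equiv.subtypeUnivEquiv h), Fintype.card_fin]

theorem SNF.finrank_Bp {A : BCx ℤ} {k : ℕ} (N : SNF A k) (p : ℕ) [Fact p.Prime] :
    Module.finrank (ZMod p) (A.BK (ZMod p) k) + N.tf p = N.n := by
  classical
  rw [N.finrank_BK (ZMod p)]
  have h := Fintype.card_subtype_compl (fun i : Fin N.n => (p : ℤ) ∣ N.a i)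
  have h2 : Fintype.card {i : Fin N.n // ((N.a i : ℤ) : ZMod p) ≠ 0} =
      Fintype.card {i : Fin N.n // ¬ (p : ℤ) ∣ N.a i} := by
    refine Fintype.card_congr (Equiv.subtypeEquivRight fun i => ?_)
    rw [Ne, ZMod.intCast_zmod_eq_zero_iff_dvd]
  have h3 := Fintype.card_subtype_le (fun i : Fin N.n => (p : ℤ) ∣ N.a i)
  rw [Fintype.card_fin] at h h3
  rw [h2, h, SNF.tf]
  omega

theorem betti_add_succ (K : Type) [Field K] (A : BCx ℤ) (k : ℕ) :
    A.betti K (k + 1) + Module.finrank K (A.BK K (k + 1)) + Module.finrank K (A.BK K k) =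
      A.ck (k + 1) :=
  (A.map (Int.castRingHom K)).finrank_Hk_succ k

theorem betti_add_zero (K : Type) [Field K] (A : BCx ℤ) :
    A.betti K 0 + Module.finrank K (A.BK K 0) = A.ck 0 :=
  (A.map (Int.castRingHom K)).finrank_Hk_zero

/-- The number of cyclic summands of order divisible by `p` in the torsion of the homology
controls the difference of the Betti numbers modulo `p` and over the reals. -/
theorem exists_tf (A : BCx ℤ) (p : ℕ) [Fact p.Prime] :
    ∃ tf : ℕ → ℕ, (∀ k, HasPT p A k (tf k)) ∧
      (∀ k, A.betti (ZMod p) (k + 1) = A.betti ℝ (k + 1) + tf (k + 1) + tf k) ∧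
      A.betti (ZMod p) 0 = A.betti ℝ 0 + tf 0 := by
  have N : ∀ k, SNF A k := fun k => (exists_SNF A k).some
  refine ⟨fun k => (N k).tf p, fun k => (N k).hasPT p, fun k => ?_, ?_⟩
  · have h1 := betti_add_succ ℝ A k
    have h2 := betti_add_succ (ZMod p) A k
    rw [(N k).finrank_BR, (N (k + 1)).finrank_BR] at h1
    have h3 := (N k).finrank_Bp p
    have h4 := (N (k + 1)).finrank_Bp p
    show _ = A.betti ℝ (k + 1) + (N (k + 1)).tf p + (N k).tf p
    omega
  · have h1 := betti_add_zero ℝ A
    have h2 := betti_add_zero (ZMod p) A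
    rw [(N 0).finrank_BR] at h1
    have h3 := (N 0).finrank_Bp p
    show _ = A.betti ℝ 0 + (N 0).tf p
    omega

/-- The rank of the integral homology is the real Betti number. -/
theorem finrank_Hk (A : BCx ℤ) (k : ℕ) : Module.finrank ℤ (A.Hk k) = A.betti ℝ k := by
  have N : ∀ k, SNF A k := fun k => (exists_SNF A k).some
  cases k with
  | zero =>
    have h1 := betti_add_zero ℝ A
    have h2 := A.finrank_Hk_zero
    rw [(N 0).finrank_BR] at h1
    rw [(N 0).rank] at h2
    omega
  | succ k =>
    have h1 := betti_add_succ ℝ A k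
    have h2 := A.finrank_Hk_succ k
    rw [(N k).finrank_BR, (N (k + 1)).finrank_BR] at h1
    rw [(N k).rank, (N (k + 1)).rank] at h2
    omega

end Pool.H3.L2
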