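import Pool.Agent.H87.L2.Tors
import Pool.Agent.H3.L2.Tensor

/-!
Summands `ℤ → ℤ, x ↦ q x` of a tensor product.
-/

set_option autoImplicit false

open scoped BigOperators Topology Kronecker

noncomputable section

namespace Pool.H3.L2

theorem tens_D (A B : BCx ℤ) :
    (A.tens B).D = A.D ⊗ₖ (1 : Matrix B.S B.S ℤ) + sgnM ℤ A.deg ⊗ₖ B.D := by
  have h : ∀ x y, (lft B.S (A.D.map (RingHom.id ℤ)) +
      lft B.S (sgnM ℤ A.deg) * rgt A.S (B.D.map (RingHom.id ℤ)) :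
        Matrix (A.S × B.S) (A.S × B.S) ℤ) x y =
      (A.D ⊗ₖ (1 : Matrix B.S B.S ℤ) + sgnM ℤ A.deg ⊗ₖ B.D) x y := by
    rintro ⟨s, u⟩ ⟨t, v⟩
    rw [Matrix.add_apply, lft_mul_rgt]
    simp only [lft, Matrix.of_apply, Matrix.map_apply, RingHom.id_apply, Matrix.add_apply,
      Matrix.kronecker_apply, Matrix.one_apply, mul_ite, mul_one, mul_zero]
  exact Matrix.ext h

theorem HasPT.of_tens {p : ℕ} {A B : BCx ℤ} {k t : ℕ} {ι : Type} [Fintype ι] [DecidableEq ι]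
    (hc : Fintype.card ι = t) (q : ι → ℤ) (hq : ∀ i, q i ≠ 0 ∧ (p : ℤ) ∣ q i)
    (P : PT (A.S × B.S) (fun s => A.deg s.1 + B.deg s.2)
      (A.D ⊗ₖ (1 : Matrix B.S B.S ℤ) + sgnM ℤ A.deg ⊗ₖ B.D) k ι q) : HasPT p (A.tens B) k t := by
  rw [← tens_D] at P
  exact HasPT.of_fintype (A := A.tens B) hc q hq P

section sgn

variable {A : BCx ℤ} {k : ℕ} {ι : Type}

theorem mul_sgn (F : Matrix ι A.S ℤ) (h : ∀ i s, A.deg s ≠ k → F i s = 0) :
    F * sgnM ℤ A.deg = (-1 : ℤ) ^ k • F := by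
  ext i s
  rw [sgnM, Matrix.mul_diagonal, Matrix.smul_apply, smul_eq_mul]
  by_cases hs : A.deg s = k
  · rw [hs, mul_comm]
  · rw [h i s hs, zero_mul, mul_zero]

theorem sgn_mul (U : Matrix A.S ι ℤ) (h : ∀ s i, A.deg s ≠ k → U s i = 0) :
    sgnM ℤ A.deg * U = (-1 : ℤ) ^ k • U := by
  ext s i
  rw [sgnM, Matrix.diagonal_mul, Matrix.smul_apply, smul_eq_mul]
  by_cases hs : A.deg s = k
  · rw [hs]
  · rw [h s i hs, mul_zero, mul_zero]

end sgn

section PTmore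

variable {A : BCx ℤ} {k : ℕ} {ι : Type} [Fintype ι] [DecidableEq ι] {q : ι → ℤ}

theorem PT.GV (P : PT A.S A.deg A.D k ι q) (hq : ∀ i, q i ≠ 0) : P.G * P.V = 1 := by
  have h : P.G * P.V * Matrix.diagonal q = Matrix.diagonal q := by
    rw [Matrix.mul_assoc, ← P.DU, ← Matrix.mul_assoc, P.GD, Matrix.mul_assoc, P.FU, Matrix.mul_one]
  ext i j
  have h1 := congrFun (congrFun h i) j
  rw [Matrix.mul_diagonal] at h1
  by_cases hij : i = j
  · subst hij
    rw [Matrix.diagonal_apply_eq] at h1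
    rw [Matrix.one_apply_eq]
    exact mul_right_cancel₀ (hq i) (h1.trans (one_mul _).symm)
  · rw [Matrix.diagonal_apply_ne _ hij] at h1
    rw [Matrix.one_apply_ne hij]
    exact (mul_eq_zero.1 h1).resolve_right (hq j)

theorem PT.DV (P : PT A.S A.deg A.D k ι q) (hq : ∀ i, q i ≠ 0) : A.D * P.V = 0 := by
  have h : A.D * P.V * Matrix.diagonal q = 0 := by
    rw [Matrix.mul_assoc, ← P.DU, ← Matrix.mul_assoc, A.D_D, Matrix.zero_mul]
  ext i j
  have h1 := congrFun (congrFun h i) j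
  rw [Matrix.mul_diagonal] at h1
  exact (mul_eq_zero.1 h1).resolve_right (hq j)

theorem PT.FV (P : PT A.S A.deg A.D k ι q) : P.F * P.V = 0 := by
  ext i j
  rw [Matrix.mul_apply]
  refine Finset.sum_eq_zero fun s _ => ?_
  by_cases hs : A.deg s = k
  · rw [P.V_deg s j (by omega), mul_zero]
  · rw [P.F_deg i s hs, zero_mul]

theorem PT.GU (P : PT A.S A.deg A.D k ι q) : P.G * P.U = 0 := by
  ext i j
  rw [Matrix.mul_apply]
  refine Finset.sum_eq_zero fun s _ => ?_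
  by_cases hs : A.deg s = k
  · rw [P.G_deg i s (by omega), zero_mul]
  · rw [P.U_deg s j hs, mul_zero]

end PTmore

section tens

variable {A B : BCx ℤ} {i j : ℕ} {ι κ : Type} [Fintype ι] [DecidableEq ι] [Fintype κ]
  [DecidableEq κ] {q : ι → ℤ} {q' : κ → ℤ}

/-- The lower summand of the tensor product. -/
def PT.tens0 (P : PT A.S A.deg A.D i ι q) (P' : PT B.S B.deg B.D j κ q') (hq : ∀ a, q a ≠ 0) (hq' : ∀ a, q' a ≠ 0)
    (g r r' x y : ι × κ → ℤ) (hr : ∀ a, q a.1 = g a * r a) (hr' : ∀ a, q' a.2 = g a * r' a)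
    (hxy : ∀ a, r a * x a + r' a * y a = 1) : PT (A.S × B.S)
    (fun s => A.deg s.1 + B.deg s.2) (A.D ⊗ₖ (1 : Matrix B.S B.S ℤ) + sgnM ℤ A.deg ⊗ₖ B.D)
    (i + j) (ι × κ) g where
  F := P.F ⊗ₖ P'.F
  G := Matrix.diagonal x * (P.G ⊗ₖ P'.F) +
    (-1 : ℤ) ^ i • (Matrix.diagonal y * (P.F ⊗ₖ P'.G))
  U := P.U ⊗ₖ P'.U
  V := (P.V ⊗ₖ P'.U) * Matrix.diagonal r + (-1 : ℤ) ^ i • ((P.U ⊗ₖ P'.V) * Matrix.diagonal r')
  F_deg := by
    rintro ⟨a, b⟩ ⟨s, t⟩ h
    rw [Matrix.kronecker_apply]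
    have h' : A.deg s + B.deg t ≠ i + j := h
    by_cases hs : A.deg s = i
    · rw [P'.F_deg b t (by omega), mul_zero]
    · rw [P.F_deg a s hs, zero_mul]
  G_deg := by
    rintro ⟨a, b⟩ ⟨s, t⟩ h
    have h' : A.deg s + B.deg t ≠ i + j + 1 := h
    rw [Matrix.add_apply, Matrix.smul_apply, Matrix.diagonal_mul, Matrix.diagonal_mul,
      Matrix.kronecker_apply, Matrix.kronecker_apply]
    have h1 : P.G a s * P'.F b t = 0 := by
      by_cases hs : A.deg s = i + 1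
      · rw [P'.F_deg b t (by omega), mul_zero]
      · rw [P.G_deg a s hs, zero_mul]
    have h2 : P.F a s * P'.G b t = 0 := by
      by_cases hs : A.deg s = i
      · rw [P'.G_deg b t (by omega), mul_zero]
      · rw [P.F_deg a s hs, zero_mul]
    rw [h1, h2, mul_zero, mul_zero, smul_zero, add_zero]
  U_deg := by
    rintro ⟨s, t⟩ ⟨a, b⟩ h
    rw [Matrix.kronecker_apply]
    have h' : A.deg s + B.deg t ≠ i + j := h
    by_cases hs : A.deg s = i
    · rw [P'.U_deg t b (by omega), mul_zero]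
    · rw [P.U_deg s a hs, zero_mul]
  V_deg := by
    rintro ⟨s, t⟩ ⟨a, b⟩ h
    have h' : A.deg s + B.deg t ≠ i + j + 1 := h
    rw [Matrix.add_apply, Matrix.smul_apply, Matrix.mul_diagonal, Matrix.mul_diagonal,
      Matrix.kronecker_apply, Matrix.kronecker_apply]
    have h1 : P.V s a * P'.U t b = 0 := by
      by_cases hs : A.deg s = i + 1
      · rw [P'.U_deg t b (by omega), mul_zero]
      · rw [P.V_deg s a hs, zero_mul]
    have h2 : P.U s a * P'.V t b = 0 := by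
      by_cases hs : A.deg s = i
      · rw [P'.V_deg t b (by omega), mul_zero]
      · rw [P.U_deg s a hs, zero_mul]
    rw [h1, h2, zero_mul, zero_mul, smul_zero, add_zero]
  GD := by
    simp only [Matrix.add_mul, Matrix.smul_mul, Matrix.mul_assoc, Matrix.mul_add]
    simp only [← Matrix.mul_kronecker_mul]
    rw [P.GD, P'.GD, P'.FD hq', P.FD hq, mul_sgn (A := A) P.F P.F_deg, Matrix.mul_one,
      Matrix.kronecker_zero, Matrix.zero_kronecker, Matrix.mul_zero, Matrix.mul_zero, smul_zero,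
      add_zero, zero_add]
    ext ⟨a, b⟩ ⟨s, t⟩
    rw [Matrix.add_apply, Matrix.smul_apply, Matrix.diagonal_mul, Matrix.diagonal_mul,
      Matrix.diagonal_mul, Matrix.kronecker_apply, Matrix.kronecker_apply, Matrix.kronecker_apply,
      Matrix.diagonal_mul, Matrix.diagonal_mul, Matrix.smul_apply, smul_eq_mul, smul_eq_mul]
    have h1 := hr (a, b)
    have h2 := hr' (a, b)
    have h3 := hxy (a, b)
    have h4 : ((-1 : ℤ) ^ i) * (-1) ^ i = 1 := by
      rw [← mul_pow]; norm_num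
    simp only at h1 h2
    rw [h1, h2]
    linear_combination (g (a, b) * (P.F a s * P'.F b t)) * h3 +
      (g (a, b) * y (a, b) * r' (a, b) * (P.F a s * P'.F b t)) * h4
  DU := by
    rw [Matrix.add_mul, ← Matrix.mul_kronecker_mul, ← Matrix.mul_kronecker_mul, P.DU,
      P'.DU, sgn_mul (A := A) P.U P.U_deg, Matrix.one_mul, Matrix.add_mul, Matrix.smul_mul,
      Matrix.mul_assoc, Matrix.mul_assoc, Matrix.diagonal_mul_diagonal,
      Matrix.diagonal_mul_diagonal]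
    ext ⟨s, t⟩ ⟨a, b⟩
    rw [Matrix.add_apply, Matrix.add_apply, Matrix.smul_apply, Matrix.kronecker_apply,
      Matrix.kronecker_apply, Matrix.mul_diagonal, Matrix.mul_diagonal, Matrix.mul_diagonal,
      Matrix.mul_diagonal, Matrix.smul_apply, Matrix.kronecker_apply, Matrix.kronecker_apply,
      smul_eq_mul, smul_eq_mul]
    have h1 := hr (a, b)
    have h2 := hr' (a, b)
    simp only at h1 h2
    rw [h1, h2]
    ring
  FU := by
    rw [← Matrix.mul_kronecker_mul, P.FU, P'.FU, Matrix.one_kronecker_one]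

/-- The upper summand of the tensor product. -/
def PT.tens1 (P : PT A.S A.deg A.D i ι q) (P' : PT B.S B.deg B.D j κ q') (hq : ∀ a, q a ≠ 0) (hq' : ∀ a, q' a ≠ 0)
    (g r r' x y : ι × κ → ℤ) (hr : ∀ a, q a.1 = g a * r a) (hr' : ∀ a, q' a.2 = g a * r' a)
    (hxy : ∀ a, r a * x a + r' a * y a = 1) : PT (A.S × B.S)
    (fun s => A.deg s.1 + B.deg s.2) (A.D ⊗ₖ (1 : Matrix B.S B.S ℤ) + sgnM ℤ A.deg ⊗ₖ B.D)
    (i + j + 1) (ι × κ) g where
  F := Matrix.diagonal r * (P.F ⊗ₖ P'.G) +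
    (-1 : ℤ) ^ (i + 1) • (Matrix.diagonal r' * (P.G ⊗ₖ P'.F))
  G := P.G ⊗ₖ P'.G
  U := (P.U ⊗ₖ P'.V) * Matrix.diagonal x +
    (-1 : ℤ) ^ (i + 1) • ((P.V ⊗ₖ P'.U) * Matrix.diagonal y)
  V := P.V ⊗ₖ P'.V
  F_deg := by
    rintro ⟨a, b⟩ ⟨s, t⟩ h
    have h' : A.deg s + B.deg t ≠ i + j + 1 := h
    rw [Matrix.add_apply, Matrix.smul_apply, Matrix.diagonal_mul, Matrix.diagonal_mul,
      Matrix.kronecker_apply, Matrix.kronecker_apply]
    have h1 : P.G a s * P'.F b t = 0 := by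
      by_cases hs : A.deg s = i + 1
      · rw [P'.F_deg b t (by omega), mul_zero]
      · rw [P.G_deg a s hs, zero_mul]
    have h2 : P.F a s * P'.G b t = 0 := by
      by_cases hs : A.deg s = i
      · rw [P'.G_deg b t (by omega), mul_zero]
      · rw [P.F_deg a s hs, zero_mul]
    rw [h1, h2, mul_zero, mul_zero, smul_zero, add_zero]
  G_deg := by
    rintro ⟨a, b⟩ ⟨s, t⟩ h
    have h' : A.deg s + B.deg t ≠ i + j + 1 + 1 := h
    rw [Matrix.kronecker_apply]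
    by_cases hs : A.deg s = i + 1
    · rw [P'.G_deg b t (by omega), mul_zero]
    · rw [P.G_deg a s hs, zero_mul]
  U_deg := by
    rintro ⟨s, t⟩ ⟨a, b⟩ h
    have h' : A.deg s + B.deg t ≠ i + j + 1 := h
    rw [Matrix.add_apply, Matrix.smul_apply, Matrix.mul_diagonal, Matrix.mul_diagonal,
      Matrix.kronecker_apply, Matrix.kronecker_apply]
    have h1 : P.V s a * P'.U t b = 0 := by
      by_cases hs : A.deg s = i + 1
      · rw [P'.U_deg t b (by omega), mul_zero]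
      · rw [P.V_deg s a hs, zero_mul]
    have h2 : P.U s a * P'.V t b = 0 := by
      by_cases hs : A.deg s = i
      · rw [P'.V_deg t b (by omega), mul_zero]
      · rw [P.U_deg s a hs, zero_mul]
    rw [h1, h2, zero_mul, zero_mul, smul_zero, add_zero]
  V_deg := by
    rintro ⟨s, t⟩ ⟨a, b⟩ h
    have h' : A.deg s + B.deg t ≠ i + j + 1 + 1 := h
    rw [Matrix.kronecker_apply]
    by_cases hs : A.deg s = i + 1
    · rw [P'.V_deg t b (by omega), mul_zero]
    · rw [P.V_deg s a hs, zero_mul]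
  GD := by
    rw [Matrix.mul_add, ← Matrix.mul_kronecker_mul, ← Matrix.mul_kronecker_mul, P.GD,
      P'.GD, mul_sgn (A := A) P.G P.G_deg, Matrix.mul_one]
    ext ⟨a, b⟩ ⟨s, t⟩
    rw [Matrix.add_apply, Matrix.diagonal_mul, Matrix.add_apply, Matrix.smul_apply,
      Matrix.kronecker_apply, Matrix.kronecker_apply, Matrix.diagonal_mul, Matrix.diagonal_mul,
      Matrix.diagonal_mul, Matrix.diagonal_mul, Matrix.kronecker_apply, Matrix.kronecker_apply,
      Matrix.smul_apply, smul_eq_mul, smul_eq_mul]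
    have h1 := hr (a, b)
    have h2 := hr' (a, b)
    simp only at h1 h2
    rw [h1, h2]
    ring
  DU := by
    simp only [Matrix.mul_add, Matrix.mul_smul, ← Matrix.mul_assoc, Matrix.add_mul]
    simp only [← Matrix.mul_kronecker_mul]
    rw [P.DU, P'.DU, P'.DV hq', P.DV hq, sgn_mul (A := A) P.V P.V_deg, Matrix.one_mul,
      Matrix.kronecker_zero, Matrix.zero_kronecker, Matrix.zero_mul, Matrix.zero_mul, add_zero,
      zero_add]
    ext ⟨s, t⟩ ⟨a, b⟩
    rw [Matrix.add_apply, Matrix.smul_apply, Matrix.mul_diagonal, Matrix.mul_diagonal,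
      Matrix.mul_diagonal, Matrix.kronecker_apply, Matrix.kronecker_apply, Matrix.kronecker_apply,
      Matrix.mul_diagonal, Matrix.mul_diagonal, Matrix.smul_apply, smul_eq_mul, smul_eq_mul]
    have h1 := hr (a, b)
    have h2 := hr' (a, b)
    have h3 := hxy (a, b)
    have h4 : ((-1 : ℤ) ^ (i + 1)) * (-1) ^ (i + 1) = 1 := by
      rw [← mul_pow]; norm_num
    simp only at h1 h2
    rw [h1, h2]
    linear_combination (g (a, b) * (P.V s a * P'.V t b)) * h3 +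
      (g (a, b) * y (a, b) * r' (a, b) * (P.V s a * P'.V t b)) * h4
  FU := by
    rw [Matrix.add_mul, Matrix.mul_add, Matrix.mul_add, Matrix.smul_mul, Matrix.smul_mul,
      Matrix.mul_smul, Matrix.mul_smul]
    have e1 : ∀ (X : Matrix ι A.S ℤ) (Y : Matrix κ B.S ℤ) (X' : Matrix A.S ι ℤ)
        (Y' : Matrix B.S κ ℤ) (u v : ι × κ → ℤ),
        Matrix.diagonal u * (X ⊗ₖ Y) * ((X' ⊗ₖ Y') * Matrix.diagonal v) =
          Matrix.diagonal u * ((X * X') ⊗ₖ (Y * Y')) * Matrix.diagonal v := by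
      intro X Y X' Y' u v
      rw [Matrix.mul_kronecker_mul, Matrix.mul_assoc, Matrix.mul_assoc, Matrix.mul_assoc]
    rw [e1, e1, e1, e1, P.FU, P.FV, P.GU, P.GV hq, P'.FU, P'.FV, P'.GU, P'.GV hq']
    simp only [Matrix.one_kronecker_one, Matrix.kronecker_zero, Matrix.mul_zero, Matrix.zero_mul,
      smul_zero, add_zero, zero_add, Matrix.mul_one, Matrix.diagonal_mul_diagonal]
    ext a b
    have h3 := hxy a
    have h4 : ((-1 : ℤ) ^ (i + 1)) * (-1) ^ (i + 1) = 1 := by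
      rw [← mul_pow]; norm_num
    rw [Matrix.add_apply, Matrix.smul_apply, Matrix.smul_apply, smul_eq_mul, smul_eq_mul]
    by_cases hab : a = b
    · subst hab
      rw [Matrix.diagonal_apply_eq, Matrix.diagonal_apply_eq, Matrix.one_apply_eq]
      linear_combination h3 + (r' a * y a) * h4
    · rw [Matrix.diagonal_apply_ne _ hab, Matrix.diagonal_apply_ne _ hab, Matrix.one_apply_ne hab]
      simp

end tens

theorem exists_gcd_data {ι κ : Type} (p : ℕ) (q : ι → ℤ) (q' : κ → ℤ)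
    (hq : ∀ i, q i ≠ 0 ∧ (p : ℤ) ∣ q i) (hq' : ∀ i, q' i ≠ 0 ∧ (p : ℤ) ∣ q' i) :
    ∃ g r r' x y : ι × κ → ℤ, (∀ a, q a.1 = g a * r a) ∧ (∀ a, q' a.2 = g a * r' a) ∧
      (∀ a, r a * x a + r' a * y a = 1) ∧ ∀ a, g a ≠ 0 ∧ (p : ℤ) ∣ g a := by
  have h : ∀ a : ι × κ, ∃ g r r' x y : ℤ, q a.1 = g * r ∧ q' a.2 = g * r' ∧ r * x + r' * y = 1 ∧
      (g ≠ 0 ∧ (p : ℤ) ∣ g) := by
    intro a
    have hg : ((Int.gcd (q a.1) (q' a.2) : ℕ) : ℤ) ≠ 0 := by
      rw [Ne, Int.natCast_eq_zero, Int.gcd_eq_zero_iff]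
      exact fun h => (hq a.1).1 h.1
    obtain ⟨r, hr⟩ := Int.gcd_dvd_left (q a.1) (q' a.2)
    obtain ⟨r', hr'⟩ := Int.gcd_dvd_right (q a.1) (q' a.2)
    refine ⟨Int.gcd (q a.1) (q' a.2), r, r', Int.gcdA (q a.1) (q' a.2),
      Int.gcdB (q a.1) (q' a.2), hr, hr', ?_, hg, Int.dvd_coe_gcd (hq a.1).2 (hq' a.2).2⟩
    have h1 := Int.gcd_eq_gcd_ab (q a.1) (q' a.2)
    apply mul_left_cancel₀ hg
    rw [mul_one, mul_add, ← mul_assoc, ← mul_assoc, ← hr, ← hr']
    exact h1.symm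
  choose g r r' x y h1 h2 h3 h4 using h
  exact ⟨g, r, r', x, y, h1, h2, h3, h4⟩

theorem HasPT.tens0 {p : ℕ} {A B : BCx ℤ} {i j t t' : ℕ} (h : HasPT p A i t)
    (h' : HasPT p B j t') : HasPT p (A.tens B) (i + j) (t * t') := by
  obtain ⟨q, hq, ⟨P⟩⟩ := h
  obtain ⟨q', hq', ⟨P'⟩⟩ := h'
  obtain ⟨g, r, r', x, y, h1, h2, h3, h4⟩ := exists_gcd_data p q q' hq hq'
  exact HasPT.of_tens (by rw [Fintype.card_prod, Fintype.card_fin, Fintype.card_fin]) g h4
    (P.tens0 P' (fun a => (hq a).1) (fun a => (hq' a).1) g r r' x y h1 h2 h3)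

theorem HasPT.tens1 {p : ℕ} {A B : BCx ℤ} {i j t t' : ℕ} (h : HasPT p A i t)
    (h' : HasPT p B j t') : HasPT p (A.tens B) (i + j + 1) (t * t') := by
  obtain ⟨q, hq, ⟨P⟩⟩ := h
  obtain ⟨q', hq', ⟨P'⟩⟩ := h'
  obtain ⟨g, r, r', x, y, h1, h2, h3, h4⟩ := exists_gcd_data p q q' hq hq'
  exact HasPT.of_tens (by rw [Fintype.card_prod, Fintype.card_fin, Fintype.card_fin]) g h4
    (P.tens1 P' (fun a => (hq a).1) (fun a => (hq' a).1) g r r' x y h1 h2 h3)

end Pool.H3.L2
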