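import Pool.Agent.H87.L2.Smith

/-!
Lower bound for the torsion from summands `ℤ → ℤ, x ↦ q x`.
-/

set_option autoImplicit false

open scoped BigOperators Topology

noncomputable section

namespace Pool.H3.L2

theorem PT.FD {A : BCx ℤ} {k : ℕ} {ι : Type} [Fintype ι] [DecidableEq ι] {q : ι → ℤ}
    (P : PT A.S A.deg A.D k ι q) (hq : ∀ i, q i ≠ 0) : P.F * A.D = 0 := by
  have h : Matrix.diagonal q * (P.F * A.D) = 0 := by
    rw [← Matrix.mul_assoc, ← P.GD, Matrix.mul_assoc, A.D_D, Matrix.mul_zero]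
  ext i s
  have h1 := congrFun (congrFun h i) s
  rw [Matrix.diagonal_mul] at h1
  exact (mul_eq_zero.1 h1).resolve_left (hq i)

theorem PT.F_mem_Zk {A : BCx ℤ} {k : ℕ} {ι : Type} [Fintype ι] [DecidableEq ι] {q : ι → ℤ}
    (P : PT A.S A.deg A.D k ι q) (hq : ∀ i, q i ≠ 0) (i : ι) : P.F i ∈ A.Zk k :=
  ⟨fun s hs => P.F_deg i s hs, by
    ext s
    exact congrFun (congrFun (P.FD hq) i) s⟩

theorem PT.qF_mem_Bk {A : BCx ℤ} {k : ℕ} {ι : Type} [Fintype ι] [DecidableEq ι] {q : ι → ℤ}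
    (P : PT A.S A.deg A.D k ι q) (i : ι) : q i • P.F i ∈ A.Bk k :=
  ⟨P.G i, fun s hs => P.G_deg i s hs, by
    ext s
    have h := congrFun (congrFun P.GD i) s
    rw [Matrix.diagonal_mul] at h
    exact h⟩

theorem BCx.mk_eq_zero {A : BCx ℤ} {k : ℕ} (v : A.Zk k) :
    (Submodule.Quotient.mk v : A.Hk k) = 0 ↔ (v : A.S → ℤ) ∈ A.Bk k := by
  rw [Submodule.Quotient.mk_eq_zero]
  rfl

theorem PT.le_torsOrd {p : ℕ} {A : BCx ℤ} {k : ℕ} {ι : Type} [Fintype ι] [DecidableEq ι]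
    {q : ι → ℤ} (P : PT A.S A.deg A.D k ι q) (hq : ∀ i, q i ≠ 0) (hp : ∀ i, (p : ℤ) ∣ q i) :
    p ^ Fintype.card ι ≤ A.torsOrd k := by
  classical
  have := A.finite_torsion k
  let z : ι → A.Zk k := fun i => ⟨P.F i, P.F_mem_Zk hq i⟩
  have hz : ∀ i, (Submodule.Quotient.mk (z i) : A.Hk k) ∈ Submodule.torsion ℤ (A.Hk k) := by
    intro i
    rw [Submodule.mem_torsion_iff]
    refine ⟨⟨q i, mem_nonZeroDivisors_of_ne_zero (hq i)⟩, ?_⟩
    show q i • (Submodule.Quotient.mk (z i) : A.Hk k) = 0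
    rw [← Submodule.Quotient.mk_smul, BCx.mk_eq_zero]
    exact P.qF_mem_Bk i
  let y : (ι → Fin p) → A.Zk k := fun x => ∑ i, ((x i : ℕ) : ℤ) • z i
  have hy : ∀ x, (Submodule.Quotient.mk (y x) : A.Hk k) ∈ Submodule.torsion ℤ (A.Hk k) := by
    intro x
    have h1 : (Submodule.Quotient.mk (y x) : A.Hk k) =
        ∑ i, ((x i : ℕ) : ℤ) • (Submodule.Quotient.mk (z i) : A.Hk k) := by
      exact map_sum (Submodule.mkQ ((A.Bk k).submoduleOf (A.Zk k)))
        (fun i => ((x i : ℕ) : ℤ) • z i) Finset.univ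
    rw [h1]
    exact Submodule.sum_mem _ fun i _ => Submodule.smul_mem _ _ (hz i)
  have hinj : Function.Injective
      (fun x => (⟨Submodule.Quotient.mk (y x), hy x⟩ : Submodule.torsion ℤ (A.Hk k))) := by
    intro x x' hxx
    have h1 : (Submodule.Quotient.mk (y x) : A.Hk k) = Submodule.Quotient.mk (y x') :=
      congrArg Subtype.val hxx
    rw [Submodule.Quotient.eq] at h1
    obtain ⟨w, hw, hwD⟩ := BCx.mem_Bk.1 (show ((y x - y x' : A.Zk k) : A.S → ℤ) ∈ A.Bk k from h1)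
    have hval : ∀ x : ι → Fin p, ((y x : A.Zk k) : A.S → ℤ) = ∑ i, ((x i : ℕ) : ℤ) • P.F i := by
      intro x
      simp only [y, z]
      rw [AddSubmonoidClass.coe_finsetSum]
      rfl
    have hU : ∀ x : ι → Fin p, ∀ j, ∑ s, ((y x : A.Zk k) : A.S → ℤ) s * P.U s j =
        ((x j : ℕ) : ℤ) := by
      intro x j
      rw [hval]
      simp only [Finset.sum_apply, Pi.smul_apply, smul_eq_mul, Finset.sum_mul]
      rw [Finset.sum_comm]
      have h2 : ∀ i, ∑ s, ((x i : ℕ) : ℤ) * P.F i s * P.U s j =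
          if i = j then ((x i : ℕ) : ℤ) else 0 := by
        intro i
        have h3 := congrFun (congrFun P.FU i) j
        rw [Matrix.mul_apply, Matrix.one_apply] at h3
        simp only [mul_assoc]
        rw [← Finset.mul_sum, h3, mul_ite, mul_one, mul_zero]
      rw [Finset.sum_congr rfl fun i _ => h2 i]
      simp
    funext j
    have h4 : ∑ s, (Matrix.vecMul w A.D) s * P.U s j = q j * ∑ s, w s * P.V s j := by
      have h5 : ∑ s, (Matrix.vecMul w A.D) s * P.U s j = Matrix.vecMul w (A.D * P.U) j := by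
        rw [← Matrix.vecMul_vecMul]
        rfl
      rw [h5, P.DU, ← Matrix.vecMul_vecMul, Matrix.vecMul_diagonal, mul_comm]
      rfl
    rw [hwD] at h4
    have h6 : ∑ s, ((y x - y x' : A.Zk k) : A.S → ℤ) s * P.U s j =
        ((x j : ℕ) : ℤ) - ((x' j : ℕ) : ℤ) := by
      have h7 : ∑ s, ((y x - y x' : A.Zk k) : A.S → ℤ) s * P.U s j =
          ∑ s, (((y x : A.Zk k) : A.S → ℤ) s * P.U s j -
            ((y x' : A.Zk k) : A.S → ℤ) s * P.U s j) :=
        Finset.sum_congr rfl fun s _ => sub_mul _ _ _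
      rw [h7, Finset.sum_sub_distrib, hU, hU]
    rw [h6] at h4
    have h7 : (p : ℤ) ∣ ((x j : ℕ) : ℤ) - ((x' j : ℕ) : ℤ) := by
      rw [h4]
      exact Dvd.dvd.mul_right (hp j) _
    have h8 : ((x' j : ℕ) : ℤ) ≡ ((x j : ℕ) : ℤ) [ZMOD (p : ℤ)] :=
      (Int.modEq_iff_dvd).2 h7
    rw [Int.natCast_modEq_iff] at h8
    exact Fin.ext (Nat.ModEq.eq_of_lt_of_lt h8.symm (x j).2 (x' j).2)
  have h := Nat.card_le_card_of_injective _ hinj
  rw [Nat.card_eq_fintype_card, Fintype.card_fun, Fintype.card_fin] at h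
  exact h

theorem HasPT.le_torsOrd {p : ℕ} {A : BCx ℤ} {k t : ℕ} (h : HasPT p A k t) :
    p ^ t ≤ A.torsOrd k := by
  obtain ⟨q, hq, ⟨P⟩⟩ := h
  have h1 := P.le_torsOrd (fun i => (hq i).1) (fun i => (hq i).2)
  rwa [Fintype.card_fin] at h1

end Pool.H3.L2
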